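import Pool.Agent.Helper10.Qc.Stmts

set_option autoImplicit false

/-! Module CONJ: conjugation by units of the Hurwitz integers. -/

namespace Pool.Agent.Helper10.Qc

open Pool.Agent.Helper19.Qh Pool.Agent.Helper19.Qc

/-- `y` is a conjugate of `x` by a unit -/
def conj_R (x y : Q) : Prop := ∃ t ∈ HO, ‖t‖ = 1 ∧ star t * x * t = y

theorem conj_trans {x y z : Q} (h1 : conj_R x y) (h2 : conj_R y z) : conj_R x z := by
  obtain ⟨t, ht, nt, et⟩ := h1
  obtain ⟨s, hs, ns, es⟩ := h2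
  refine ⟨t * s, HO.mul_mem ht hs, ?_, ?_⟩
  · rw [norm_mul, nt, ns, one_mul]
  · rw [star_mul, ← es, ← et]
    simp only [mul_assoc]

theorem conj_norm_one {q : Q} (h : ‖q‖ ^ 2 = 1) : ‖q‖ = 1 := by
  have h0 := norm_nonneg q
  nlinarith

theorem conj_refl (x : Q) : conj_R x x := by
  refine ⟨1, HO.one_mem, norm_one, ?_⟩
  rw [star_one, one_mul, mul_one]

theorem conj_i (x : Q) : conj_R x ⟨x.re, x.imI, -x.imJ, -x.imK⟩ := by
  refine ⟨hq 0 1 0 0, hq_mem _ _ _ _, ?_, ?_⟩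
  · apply conj_norm_one
    rw [hq_norm]
    norm_num
  · apply Quaternion.ext <;> simp only [Quaternion.re_mul, Quaternion.imI_mul, Quaternion.imJ_mul,
      Quaternion.imK_mul, Quaternion.re_star, Quaternion.imI_star, Quaternion.imJ_star,
      Quaternion.imK_star, hq_re, hq_i, hq_j, hq_k] <;> push_cast <;> ring

theorem conj_j (x : Q) : conj_R x ⟨x.re, -x.imI, x.imJ, -x.imK⟩ := by
  refine ⟨hq 0 0 1 0, hq_mem _ _ _ _, ?_, ?_⟩
  · apply conj_norm_one
    rw [hq_norm]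
    norm_num
  · apply Quaternion.ext <;> simp only [Quaternion.re_mul, Quaternion.imI_mul, Quaternion.imJ_mul,
      Quaternion.imK_mul, Quaternion.re_star, Quaternion.imI_star, Quaternion.imJ_star,
      Quaternion.imK_star, hq_re, hq_i, hq_j, hq_k] <;> push_cast <;> ring

theorem conj_k (x : Q) : conj_R x ⟨x.re, -x.imI, -x.imJ, x.imK⟩ := by
  refine ⟨hq 0 0 0 1, hq_mem _ _ _ _, ?_, ?_⟩
  · apply conj_norm_one
    rw [hq_norm]
    norm_num
  · apply Quaternion.ext <;> simp only [Quaternion.re_mul, Quaternion.imI_mul, Quaternion.imJ_mul,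
      Quaternion.imK_mul, Quaternion.re_star, Quaternion.imI_star, Quaternion.imJ_star,
      Quaternion.imK_star, hq_re, hq_i, hq_j, hq_k] <;> push_cast <;> ring

theorem conj_w (x : Q) : conj_R x ⟨x.re, x.imJ, x.imK, x.imI⟩ := by
  refine ⟨hq 1 0 0 0, hq_mem _ _ _ _, ?_, ?_⟩
  · apply conj_norm_one
    rw [hq_norm]
    norm_num
  · apply Quaternion.ext <;> simp only [Quaternion.re_mul, Quaternion.imI_mul, Quaternion.imJ_mul,
      Quaternion.imK_mul, Quaternion.re_star, Quaternion.imI_star, Quaternion.imJ_star,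
      Quaternion.imK_star, hq_re, hq_i, hq_j, hq_k] <;> push_cast <;> ring

theorem conj_rot (x : Q) : ∃ y : Q, conj_R x y ∧ y.re = x.re ∧
    |y.imI| + |y.imJ| + |y.imK| = |x.imI| + |x.imJ| + |x.imK| ∧
    |y.imK| ≤ |y.imI| ∧ |y.imK| ≤ |y.imJ| := by
  by_cases h1 : |x.imK| ≤ |x.imI| ∧ |x.imK| ≤ |x.imJ|
  · exact ⟨x, conj_refl x, rfl, rfl, h1.1, h1.2⟩
  · by_cases h2 : |x.imI| ≤ |x.imJ|
    · refine ⟨_, conj_w x, rfl, ?_, ?_, ?_⟩
      · show |x.imJ| + |x.imK| + |x.imI| = _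
        ring
      · exact h2
      · show |x.imI| ≤ |x.imK|
        by_contra h3
        rw [not_le] at h3
        exact h1 ⟨h3.le, h3.le.trans h2⟩
    · refine ⟨_, conj_trans (conj_w x) (conj_w _), rfl, ?_, ?_, ?_⟩
      · show |x.imK| + |x.imI| + |x.imJ| = _
        ring
      · show |x.imJ| ≤ |x.imK|
        by_contra h3
        rw [not_le] at h3 h2
        exact h1 ⟨h3.le.trans h2.le, h3.le⟩
      · show |x.imJ| ≤ |x.imI|
        rw [not_le] at h2
        exact h2.le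

theorem conj_sgn (x : Q) : ∃ y : Q, conj_R x y ∧ y.re = x.re ∧ y.imI = |x.imI| ∧ y.imJ = |x.imJ| ∧
    |y.imK| = |x.imK| := by
  rcases le_total 0 x.imI with hi | hi <;> rcases le_total 0 x.imJ with hj | hj
  · exact ⟨x, conj_refl x, rfl, (abs_of_nonneg hi).symm, (abs_of_nonneg hj).symm, rfl⟩
  · exact ⟨_, conj_i x, rfl, (abs_of_nonneg hi).symm, (abs_of_nonpos hj).symm, abs_neg _⟩
  · exact ⟨_, conj_j x, rfl, (abs_of_nonpos hi).symm, (abs_of_nonneg hj).symm, abs_neg _⟩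
  · exact ⟨_, conj_k x, rfl, (abs_of_nonpos hi).symm, (abs_of_nonpos hj).symm, rfl⟩

theorem st_CONJ : ST_CONJ := by
  intro x
  obtain ⟨y, hxy, y0, ys, y1, y2⟩ := conj_rot x
  obtain ⟨z, hyz, z0, zi, zj, zk⟩ := conj_sgn y
  obtain ⟨t, ht, nt, et⟩ := conj_trans hxy hyz
  refine ⟨t, ht, nt, ?_⟩
  rw [et]
  refine ⟨z0.trans y0, ?_, ?_, ?_⟩
  · rw [zi, zj, zk, abs_abs, abs_abs]
    exact ys
  · rw [zk, zi]
    exact y1
  · rw [zk, zj]
    exact y2

end Pool.Agent.Helper10.Qc
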